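import Pool.Agent.H495R3.CyPoly

/-!
# Bipartite graphs with a dominating edge

Two adjacent vertices are added, each joined to all vertices of the other side. They do not take
part in any alternating-edge obstruction.
-/

set_option autoImplicit false

namespace Pool.Agent.Y646.CO

open Pool.Agent.NPC Pool.Agent.H495R3.Cy Pool.Agent.H622R2

/-- Some edge dominates the graph: every vertex is adjacent to one of its two ends. -/
def DomEdge {V : Type} (G : SimpleGraph V) : Prop :=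
  ∃ x y : V, G.Adj x y ∧ ∀ v, G.Adj v x ∨ G.Adj v y

theorem DomEdge.dist_le {V : Type} {G : SimpleGraph V} (h : DomEdge G) :
    G.Connected ∧ ∀ u v, G.dist u v ≤ 3 := by
  obtain ⟨x, y, hxy, h⟩ := h
  have key : ∀ u v, ∃ p : G.Walk u v, p.length ≤ 3 := by
    intro u v
    rcases h u with hu | hu <;> rcases h v with hv | hv
    · exact ⟨.cons hu (.cons hv.symm .nil), by simp⟩
    · exact ⟨.cons hu (.cons hxy (.cons hv.symm .nil)), by simp⟩
    · exact ⟨.cons hu (.cons hxy.symm (.cons hv.symm .nil)), by simp⟩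
    · exact ⟨.cons hu (.cons hv.symm .nil), by simp⟩
  have : Nonempty V := ⟨x⟩
  refine ⟨⟨fun u v => ?_⟩, fun u v => ?_⟩
  · obtain ⟨p, _⟩ := key u v
    exact ⟨p⟩
  · obtain ⟨p, hp⟩ := key u v
    exact (SimpleGraph.dist_le p).trans hp

theorem DomEdge.of_iso {V W : Type} {G : SimpleGraph V} {H : SimpleGraph W} (e : G ≃g H)
    (h : DomEdge H) : DomEdge G := by
  obtain ⟨x, y, hxy, h⟩ := h
  refine ⟨e.symm x, e.symm y, e.symm.map_adj_iff.2 hxy, fun v => ?_⟩
  rcases h (e v) with h | h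
  · left
    have := e.symm.map_adj_iff.2 h
    simpa using this
  · right
    have := e.symm.map_adj_iff.2 h
    simpa using this

/-- adjacency with the two new vertices `(6, 0)` and `(7, 0)` -/
def adjD (Q : List Quad) (u v : ℕ × ℕ) : Bool :=
  adjC Q u v || ((decide (u.1 = 6) && (isB v.1 || decide (v.1 = 7))) ||
    (isA u.1 && decide (v.1 = 7)))

/-- the vertices -/
def vsD (E : List ℕ) (Q : List Quad) : List (ℕ × ℕ) := (6, 0) :: (7, 0) :: vsC E Q

variable {E : List ℕ} {Q : List Quad}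

/-- the graph -/
abbrev grD (E : List ℕ) (Q : List Quad) := labGraph (vsD E Q) (adjD Q)

/-- the first side -/
def sd (k : ℕ) : Prop := k = 1 ∨ k = 2 ∨ k = 3 ∨ k = 6

theorem adjD_iff (u v : ℕ × ℕ) : adjD Q u v = true ↔
    adjC Q u v = true ∨ (u.1 = 6 ∧ (v.1 = 0 ∨ v.1 = 4 ∨ v.1 = 5 ∨ v.1 = 7)) ∨
      ((u.1 = 1 ∨ u.1 = 2 ∨ u.1 = 3) ∧ v.1 = 7) := by
  unfold adjD isA isB
  simp only [Bool.or_eq_true, Bool.and_eq_true, decide_eq_true_eq]
  constructor
  · rintro (h | ⟨h1, h2⟩ | ⟨h1, h2⟩)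
    · exact Or.inl h
    · exact Or.inr (Or.inl ⟨h1, by omega⟩)
    · exact Or.inr (Or.inr ⟨by omega, h2⟩)
  · rintro (h | ⟨h1, h2⟩ | ⟨h1, h2⟩)
    · exact Or.inl h
    · exact Or.inr (Or.inl ⟨h1, by omega⟩)
    · exact Or.inr (Or.inr ⟨by omega, h2⟩)

theorem adjC_sd {u v : ℕ × ℕ} (h : adjC Q u v = true) : (u.1 = 1 ∨ u.1 = 2 ∨ u.1 = 3) ∧
    (v.1 = 0 ∨ v.1 = 4 ∨ v.1 = 5) := by
  unfold adjC isA isB at h
  simp only [Bool.or_eq_true, Bool.and_eq_true, decide_eq_true_eq] at h
  omega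

theorem adjD_sd {u v : ℕ × ℕ} (h : adjD Q u v = true) : sd u.1 ∧
    (v.1 = 0 ∨ v.1 = 4 ∨ v.1 = 5 ∨ v.1 = 7) := by
  rw [adjD_iff] at h
  unfold sd
  rcases h with h | h | h
  · have := adjC_sd h
    omega
  · omega
  · omega

theorem adj_iffD (u v : {x // x ∈ vsD E Q}) : (grD E Q).Adj u v ↔
    adjD Q u.1 v.1 = true ∨ adjD Q v.1 u.1 = true := by
  change (u ≠ v ∧ _) ↔ _
  constructor
  · exact fun h => h.2
  · intro h
    refine ⟨?_, h⟩
    rintro rfl
    have h1 : sd u.1.1 ∧ (u.1.1 = 0 ∨ u.1.1 = 4 ∨ u.1.1 = 5 ∨ u.1.1 = 7) := by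
      rcases h with h | h <;> exact adjD_sd h
    unfold sd at h1
    omega

theorem mem_vsD (u : ℕ × ℕ) : u ∈ vsD E Q ↔ u = (6, 0) ∨ u = (7, 0) ∨ u ∈ vsC E Q := by
  unfold vsD
  rw [List.mem_cons, List.mem_cons]

theorem vsC_lt {u : ℕ × ℕ} (h : u ∈ vsC E Q) : u.1 < 6 := by
  rw [mem_vsC] at h
  omega

/-- the new vertex of the first side -/
def x6 (E : List ℕ) (Q : List Quad) : {x // x ∈ vsD E Q} := ⟨(6, 0), by simp [vsD]⟩

/-- the new vertex of the second side -/
def x7 (E : List ℕ) (Q : List Quad) : {x // x ∈ vsD E Q} := ⟨(7, 0), by simp [vsD]⟩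

theorem adj_x7 (u : {x // x ∈ vsD E Q}) (h : sd u.1.1) : (grD E Q).Adj u (x7 E Q) := by
  rw [adj_iffD, adjD_iff, adjD_iff]
  left
  unfold sd at h
  show _ ∨ (_ ∧ ((7 : ℕ) = 0 ∨ (7 : ℕ) = 4 ∨ (7 : ℕ) = 5 ∨ (7 : ℕ) = 7)) ∨ (_ ∧ (7 : ℕ) = 7)
  omega

theorem adj_x6 (u : {x // x ∈ vsD E Q}) (h : ¬ sd u.1.1) : (grD E Q).Adj u (x6 E Q) := by
  rw [adj_iffD, adjD_iff, adjD_iff]
  right
  have h1 := u.2
  rw [mem_vsD] at h1
  have h2 : u.1.1 ≤ 7 := by
    rcases h1 with h1 | h1 | h1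
    · rw [h1]; decide
    · rw [h1]
    · have := vsC_lt h1
      omega
  unfold sd at h
  show _ ∨ ((6 : ℕ) = 6 ∧ _) ∨ _
  omega

theorem domEdge_grD : DomEdge (grD E Q) := by
  refine ⟨x6 E Q, x7 E Q, adj_x7 _ (by unfold sd; exact Or.inr (Or.inr (Or.inr rfl))), fun v => ?_⟩
  by_cases h : sd v.1.1
  · exact Or.inr (adj_x7 v h)
  · exact Or.inl (adj_x6 v h)

theorem adj_sd {u v : {x // x ∈ vsD E Q}} (h : (grD E Q).Adj u v) : ¬ (sd u.1.1 ↔ sd v.1.1) := by
  rw [adj_iffD] at h
  rcases h with h | h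
  · have := adjD_sd h
    unfold sd at *
    omega
  · have := adjD_sd h
    unfold sd at *
    omega

open Classical in
theorem grD_bipartite : (grD E Q).IsBipartite := by
  refine ⟨SimpleGraph.Coloring.mk (fun u => if sd u.1.1 then 0 else 1) ?_⟩
  intro u v huv
  have h := adj_sd huv
  by_cases h1 : sd u.1.1 <;> by_cases h2 : sd v.1.1 <;> simp_all

theorem adj_old (u v : {x // x ∈ vsC E Q}) : (grD E Q).Adj ⟨u.1, (mem_vsD _).2 (Or.inr (Or.inr u.2))⟩
    ⟨v.1, (mem_vsD _).2 (Or.inr (Or.inr v.2))⟩ ↔ (grC E Q).Adj u v := by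
  rw [adj_iffD, adj_iffC, adjD_iff, adjD_iff]
  have h1 := vsC_lt u.2
  have h2 := vsC_lt v.2
  constructor
  · rintro ((h | h | h) | (h | h | h))
    · exact Or.inl h
    · simp only at h
      omega
    · simp only at h
      omega
    · exact Or.inr h
    · simp only at h
      omega
    · simp only at h
      omega
  · rintro (h | h)
    · exact Or.inl (Or.inl h)
    · exact Or.inr (Or.inl h)

/-- A new vertex is adjacent to an end of every edge. -/
theorem new_adj {x p q : {x // x ∈ vsD E Q}} (hx : x.1 ∉ vsC E Q) (h : (grD E Q).Adj p q) :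
    (grD E Q).Adj x p ∨ (grD E Q).Adj x q := by
  have h1 := (mem_vsD _).1 x.2
  have h2 := adj_sd h
  rcases h1 with h1 | h1 | h1
  · have hx6 : x = x6 E Q := Subtype.ext h1
    by_cases hp : sd p.1.1
    · have hq : ¬ sd q.1.1 := fun hq => h2 (iff_of_true hp hq)
      right
      rw [hx6]
      exact (adj_x6 q hq).symm
    · left
      rw [hx6]
      exact (adj_x6 p hp).symm
  · have hx7 : x = x7 E Q := Subtype.ext h1
    by_cases hp : sd p.1.1
    · left
      rw [hx7]
      exact (adj_x7 p hp).symm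
    · have hq : sd q.1.1 := by
        by_contra hq
        exact h2 (iff_of_false hp hq)
      right
      rw [hx7]
      exact (adj_x7 q hq).symm
  · exact absurd h1 hx

theorem good_iffD : HasGoodOrdering (grD E Q) ↔ HasGoodOrdering (grC E Q) := by
  classical
  constructor
  · rintro ⟨f, hf, h⟩
    refine ⟨fun u => f ⟨u.1, (mem_vsD _).2 (Or.inr (Or.inr u.2))⟩, ?_, ?_⟩
    · intro u v huv
      have := hf huv
      exact Subtype.ext (Subtype.mk.inj this)
    · rintro ⟨a, b, c, d, hm, h1, h2, h3, h4, h5, h6⟩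
      exact h ⟨_, _, _, _, hm, (adj_old a c).2 h1, (adj_old b d).2 h2,
        fun h => h3 ((adj_old a b).1 h), fun h => h4 ((adj_old b c).1 h),
        fun h => h5 ((adj_old c d).1 h), fun h => h6 ((adj_old d a).1 h)⟩
  · rintro ⟨f, hf, h⟩
    set F : {x // x ∈ vsD E Q} → ℕ := fun u =>
      if hu : u.1 ∈ vsC E Q then f ⟨u.1, hu⟩ + 2 else if u.1.1 = 6 then 0 else 1 with hF
    have hold : ∀ u (hu : u.1 ∈ vsC E Q), F u = f ⟨u.1, hu⟩ + 2 := fun u hu => dif_pos hu
    refine ⟨F, ?_, ?_⟩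
    · intro u v huv
      by_cases hu : u.1 ∈ vsC E Q <;> by_cases hv : v.1 ∈ vsC E Q
      · rw [hold u hu, hold v hv] at huv
        have := hf (Nat.add_right_cancel huv)
        exact Subtype.ext (Subtype.mk.inj this)
      · exfalso
        rw [hold u hu] at huv
        simp only [hF, dif_neg hv] at huv
        split_ifs at huv <;> omega
      · exfalso
        rw [hold v hv] at huv
        simp only [hF, dif_neg hu] at huv
        split_ifs at huv <;> omega
      · have h1 := (mem_vsD _).1 u.2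
        have h2 := (mem_vsD _).1 v.2
        simp only [hF, dif_neg hu, dif_neg hv] at huv
        rcases h1 with h1 | h1 | h1
        · rcases h2 with h2 | h2 | h2
          · exact Subtype.ext (h1.trans h2.symm)
          · rw [h1, h2] at huv
            simp at huv
          · exact absurd h2 hv
        · rcases h2 with h2 | h2 | h2
          · rw [h1, h2] at huv
            simp at huv
          · exact Subtype.ext (h1.trans h2.symm)
          · exact absurd h2 hv
        · exact absurd h1 hu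
    · rintro ⟨a, b, c, d, hm, h1, h2, h3, h4, h5, h6⟩
      have ha : a.1 ∈ vsC E Q := by
        by_contra hx
        rcases new_adj hx h2 with h' | h'
        · exact h3 h'
        · exact h6 h'.symm
      have hb : b.1 ∈ vsC E Q := by
        by_contra hx
        rcases new_adj hx h1 with h' | h'
        · exact h3 h'.symm
        · exact h4 h'
      have hc : c.1 ∈ vsC E Q := by
        by_contra hx
        rcases new_adj hx h2 with h' | h'
        · exact h4 h'.symm
        · exact h5 h'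
      have hd : d.1 ∈ vsC E Q := by
        by_contra hx
        rcases new_adj hx h1 with h' | h'
        · exact h6 h'
        · exact h5 h'.symm
      refine h ⟨⟨a.1, ha⟩, ⟨b.1, hb⟩, ⟨c.1, hc⟩, ⟨d.1, hd⟩, ?_,
        (adj_old ⟨a.1, ha⟩ ⟨c.1, hc⟩).1 h1, (adj_old ⟨b.1, hb⟩ ⟨d.1, hd⟩).1 h2,
        fun h => h3 ((adj_old ⟨a.1, ha⟩ ⟨b.1, hb⟩).2 h), fun h => h4 ((adj_old ⟨b.1, hb⟩ ⟨c.1, hc⟩).2 h),
        fun h => h5 ((adj_old ⟨c.1, hc⟩ ⟨d.1, hd⟩).2 h), fun h => h6 ((adj_old ⟨d.1, hd⟩ ⟨a.1, ha⟩).2 h)⟩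
      unfold MetInOrder at hm ⊢
      rw [hold a ha, hold b hb, hold c hc, hold d hd] at hm
      omega

/-! ### The reduction -/

/-- the reduction -/
def cyRedD (φ : List Cl) : List (List Bool) :=
  mat (vsD (els φ) (quads φ)) (adjD (quads φ))

theorem vsD_nodup (φ : List Cl) : (vsD (els φ) (quads φ)).Nodup := by
  unfold vsD
  rw [List.nodup_cons, List.nodup_cons]
  refine ⟨?_, ?_, vsC_nodup φ⟩
  · rw [List.mem_cons, not_or]
    refine ⟨by decide, fun h => ?_⟩
    have := vsC_lt h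
    simp at this
  · intro h
    have := vsC_lt h
    simp at this

theorem cyRedD_correct {φ : List Cl} (hd : Distinct3 φ) (hb : Bounded3 φ) :
    SAT3 φ ↔ BipGoodOrdering (cyRedD φ) := by
  have e := matIso (vsD (els φ) (quads φ)) (adjD (quads φ)) (vsD_nodup φ)
  have hq := quads_ok hd hb
  constructor
  · intro h
    exact ⟨(grD_bipartite (E := els φ) (Q := quads φ)).of_hom e.toHom,
      HasGoodOrdering.of_iso e (good_iffD.2 (solv_to_good hq (sat_to_solv hd hb h)))⟩
  · rintro ⟨-, h⟩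
    exact solv_to_sat hd hb (good_to_solv hq (good_iffD.1 (HasGoodOrdering.of_iso e.symm h)))

/-- the promise: a bipartite graph with a dominating edge -/
def BipDom (M : List (List Bool)) : Prop :=
  (matGraph M).IsBipartite ∧ DomEdge (matGraph M)

theorem cyRedD_dom (φ : List Cl) : BipDom (cyRedD φ) := by
  have e := matIso (vsD (els φ) (quads φ)) (adjD (quads φ)) (vsD_nodup φ)
  exact ⟨(grD_bipartite (E := els φ) (Q := quads φ)).of_hom e.toHom, domEdge_grD.of_iso e⟩

theorem adjD_poly {α : Type} [TEnc α] {Q : α → List Quad} {u v : α → ℕ × ℕ} (hq : Poly Q)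
    (hu : Poly u) (hv : Poly v) : Poly (fun a => adjD (Q a) (u a) (v a)) := by
  unfold adjD
  fun_prop

theorem vsD_poly : Poly (fun φ : List Cl => vsD (els φ) (quads φ)) := by
  unfold vsD
  exact NPC.Poly.cons (NPC.Poly.const _) (NPC.Poly.cons (NPC.Poly.const _) vsC_poly)

theorem cyRedD_poly : Poly cyRedD :=
  H622R2.mat_poly (l := fun φ => vsD (els φ) (quads φ)) (adj := fun φ => adjD (quads φ))
    vsD_poly (adjD_poly (by fun_prop) (by fun_prop) (by fun_prop))

/-- The problem is hard for bipartite graphs with a dominating edge. -/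
theorem hardPr_BipDom : HardPr BipDom BipGoodOrdering :=
  hardPr_SAT3b.trans (Pr' := BipDom) cyRedD_poly (fun φ _ => cyRedD_dom φ)
    (fun _ h => cyRedD_correct h.1 h.2.1)

end Pool.Agent.Y646.CO
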