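import Pool.Agent.Y646.CO.Dom
import Pool.Agent.NPC.Dec

/-!
# The cyclic ordering problem for bipartite graphs is in `NP`
-/

set_option autoImplicit false

namespace Pool.Agent.Y646.CO

open Pool.Agent.NPC Pool.Agent.H495R3.Cy Pool.Agent.H622R2

/-- adjacency test -/
def adjT (M : List (List Bool)) (i j : ℕ) : Bool :=
  !decide (i = j) && ((M.getD i []).getD j false || (M.getD j []).getD i false)

/-- the cyclic order of four vertices -/
def metT (p : List ℕ) (a b c d : ℕ) : Bool :=
  (decide (p.getD a 0 < p.getD b 0) && (decide (p.getD b 0 < p.getD c 0) &&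
    decide (p.getD c 0 < p.getD d 0))) ||
  ((decide (p.getD b 0 < p.getD c 0) && (decide (p.getD c 0 < p.getD d 0) &&
    decide (p.getD d 0 < p.getD a 0))) ||
  ((decide (p.getD c 0 < p.getD d 0) && (decide (p.getD d 0 < p.getD a 0) &&
    decide (p.getD a 0 < p.getD b 0))) ||
  (decide (p.getD d 0 < p.getD a 0) && (decide (p.getD a 0 < p.getD b 0) &&
    decide (p.getD b 0 < p.getD c 0)))))

/-- an alternating-edge obstruction -/
def obsT (M : List (List Bool)) (p : List ℕ) (a b c d : ℕ) : Bool :=
  metT p a b c d && (adjT M a c && (adjT M b d && (!adjT M a b && (!adjT M b c &&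
    (!adjT M c d && !adjT M d a)))))

/-- the test of a certificate -/
def certT (x : List (List Bool) × List Bool × List ℕ) : Bool :=
  ((List.range x.1.length).all fun i => (List.range x.1.length).all fun j =>
    (!adjT x.1 i j || !decide (x.2.1.getD i false = x.2.1.getD j false)) &&
    (decide (i = j) || !decide (x.2.2.getD i 0 = x.2.2.getD j 0))) &&
  ((List.range x.1.length).all fun a => (List.range x.1.length).all fun b =>
    (List.range x.1.length).all fun c => (List.range x.1.length).all fun d =>
      !obsT x.1 x.2.2 a b c d)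

section

variable {α : Type} [TEnc α]

theorem adjT_poly {M : α → List (List Bool)} {i j : α → ℕ} (hM : Poly M) (hi : Poly i)
    (hj : Poly j) : Poly (fun a => adjT (M a) (i a) (j a)) := by
  unfold adjT
  exact Poly.and (Poly.not (Poly.decide_eq hi hj)) (Poly.or
    (Poly.getD (Poly.getD hM hi (NPC.Poly.const [])) hj (NPC.Poly.const false))
    (Poly.getD (Poly.getD hM hj (NPC.Poly.const [])) hi (NPC.Poly.const false)))

theorem lt_poly {p : α → List ℕ} {i j : α → ℕ} (hp : Poly p) (hi : Poly i) (hj : Poly j) :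
    Poly (fun a => decide ((p a).getD (i a) 0 < (p a).getD (j a) 0)) :=
  Poly.decide_lt (Poly.getD hp hi (NPC.Poly.const 0)) (Poly.getD hp hj (NPC.Poly.const 0))

theorem metT_poly {p : α → List ℕ} {a b c d : α → ℕ} (hp : Poly p) (ha : Poly a) (hb : Poly b)
    (hc : Poly c) (hd : Poly d) : Poly (fun x => metT (p x) (a x) (b x) (c x) (d x)) := by
  unfold metT
  have hab := lt_poly hp ha hb
  have hbc := lt_poly hp hb hc
  have hcd := lt_poly hp hc hd
  have hda := lt_poly hp hd ha
  exact Poly.or (Poly.and hab (Poly.and hbc hcd)) (Poly.or (Poly.and hbc (Poly.and hcd hda))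
    (Poly.or (Poly.and hcd (Poly.and hda hab)) (Poly.and hda (Poly.and hab hbc))))

theorem obsT_poly {M : α → List (List Bool)} {p : α → List ℕ} {a b c d : α → ℕ} (hM : Poly M)
    (hp : Poly p) (ha : Poly a) (hb : Poly b) (hc : Poly c) (hd : Poly d) :
    Poly (fun x => obsT (M x) (p x) (a x) (b x) (c x) (d x)) := by
  unfold obsT
  exact Poly.and (metT_poly hp ha hb hc hd) (Poly.and (adjT_poly hM ha hc) (Poly.and
    (adjT_poly hM hb hd) (Poly.and (Poly.not (adjT_poly hM ha hb)) (Poly.and
    (Poly.not (adjT_poly hM hb hc)) (Poly.and (Poly.not (adjT_poly hM hc hd))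
    (Poly.not (adjT_poly hM hd ha)))))))

end

theorem certT_poly : Poly certT := by
  have h0 : Poly (fun x : List (List Bool) × List Bool × List ℕ => x.1) := Poly.fst Poly.id
  have hr : UPoly (fun x : List (List Bool) × List Bool × List ℕ => x.1.length) := UPoly.length h0
  unfold certT
  refine Poly.and ?_ ?_
  · refine Poly.all (l := fun x : List (List Bool) × List Bool × List ℕ => List.range x.1.length)
      (p := fun x i => (List.range x.1.length).all fun j =>
        (!adjT x.1 i j || !decide (x.2.1.getD i false = x.2.1.getD j false)) &&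
        (decide (i = j) || !decide (x.2.2.getD i 0 = x.2.2.getD j 0))) hr.range ?_
    have f1 : Poly (fun y : (List (List Bool) × List Bool × List ℕ) × ℕ => y.1) := Poly.fst Poly.id
    refine Poly.all (l := fun y : (List (List Bool) × List Bool × List ℕ) × ℕ =>
        List.range y.1.1.length)
      (p := fun y j => (!adjT y.1.1 y.2 j || !decide (y.1.2.1.getD y.2 false = y.1.2.1.getD j false)) &&
        (decide (y.2 = j) || !decide (y.1.2.2.getD y.2 0 = y.1.2.2.getD j 0)))
      (hr.comp f1).range ?_
    have f2 : Poly (fun z : ((List (List Bool) × List Bool × List ℕ) × ℕ) × ℕ => z.1.1) :=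
      Poly.fst (Poly.fst Poly.id)
    have hi : Poly (fun z : ((List (List Bool) × List Bool × List ℕ) × ℕ) × ℕ => z.1.2) :=
      Poly.snd (Poly.fst Poly.id)
    have hj : Poly (fun z : ((List (List Bool) × List Bool × List ℕ) × ℕ) × ℕ => z.2) :=
      Poly.snd Poly.id
    have hM := Poly.fst f2
    have hc := Poly.fst (Poly.snd f2)
    have hp := Poly.snd (Poly.snd f2)
    exact Poly.and (Poly.or (Poly.not (adjT_poly hM hi hj)) (Poly.not (Poly.decide_eq
      (Poly.getD hc hi (NPC.Poly.const false)) (Poly.getD hc hj (NPC.Poly.const false)))))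
      (Poly.or (Poly.decide_eq hi hj) (Poly.not (Poly.decide_eq
      (Poly.getD hp hi (NPC.Poly.const 0)) (Poly.getD hp hj (NPC.Poly.const 0)))))
  · refine Poly.all (l := fun x : List (List Bool) × List Bool × List ℕ => List.range x.1.length)
      (p := fun x a => (List.range x.1.length).all fun b => (List.range x.1.length).all fun c =>
        (List.range x.1.length).all fun d => !obsT x.1 x.2.2 a b c d) hr.range ?_
    have f1 : Poly (fun y : (List (List Bool) × List Bool × List ℕ) × ℕ => y.1) := Poly.fst Poly.id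
    refine Poly.all (l := fun y : (List (List Bool) × List Bool × List ℕ) × ℕ =>
        List.range y.1.1.length)
      (p := fun y b => (List.range y.1.1.length).all fun c =>
        (List.range y.1.1.length).all fun d => !obsT y.1.1 y.1.2.2 y.2 b c d)
      (hr.comp f1).range ?_
    have f2 : Poly (fun z : ((List (List Bool) × List Bool × List ℕ) × ℕ) × ℕ => z.1.1) :=
      Poly.fst (Poly.fst Poly.id)
    refine Poly.all (l := fun z : ((List (List Bool) × List Bool × List ℕ) × ℕ) × ℕ =>
        List.range z.1.1.1.length)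
      (p := fun z c => (List.range z.1.1.1.length).all fun d =>
        !obsT z.1.1.1 z.1.1.2.2 z.1.2 z.2 c d) (hr.comp f2).range ?_
    have f3 : Poly (fun z : (((List (List Bool) × List Bool × List ℕ) × ℕ) × ℕ) × ℕ => z.1.1.1) :=
      Poly.fst (Poly.fst (Poly.fst Poly.id))
    refine Poly.all (l := fun z : (((List (List Bool) × List Bool × List ℕ) × ℕ) × ℕ) × ℕ =>
        List.range z.1.1.1.1.length)
      (p := fun z d => !obsT z.1.1.1.1 z.1.1.1.2.2 z.1.1.2 z.1.2 z.2 d) (hr.comp f3).range ?_
    have f4 : Poly (fun z : ((((List (List Bool) × List Bool × List ℕ) × ℕ) × ℕ) × ℕ) × ℕ =>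
      z.1.1.1.1) := Poly.fst (Poly.fst (Poly.fst (Poly.fst Poly.id)))
    have ha : Poly (fun z : ((((List (List Bool) × List Bool × List ℕ) × ℕ) × ℕ) × ℕ) × ℕ =>
      z.1.1.1.2) := Poly.snd (Poly.fst (Poly.fst (Poly.fst Poly.id)))
    have hb : Poly (fun z : ((((List (List Bool) × List Bool × List ℕ) × ℕ) × ℕ) × ℕ) × ℕ =>
      z.1.1.2) := Poly.snd (Poly.fst (Poly.fst Poly.id))
    have hc : Poly (fun z : ((((List (List Bool) × List Bool × List ℕ) × ℕ) × ℕ) × ℕ) × ℕ =>
      z.1.2) := Poly.snd (Poly.fst Poly.id)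
    have hd : Poly (fun z : ((((List (List Bool) × List Bool × List ℕ) × ℕ) × ℕ) × ℕ) × ℕ =>
      z.2) := Poly.snd Poly.id
    exact Poly.not (obsT_poly (Poly.fst f4) (Poly.snd (Poly.snd f4)) ha hb hc hd)

theorem adjT_iff {M : List (List Bool)} (i j : Fin M.length) :
    adjT M i.val j.val = true ↔ (matGraph M).Adj i j := by
  unfold adjT matGraph entry
  simp only [Bool.and_eq_true, Bool.not_eq_true', decide_eq_false_iff_not, Bool.or_eq_true, ne_eq,
    Fin.ext_iff]

theorem metT_iff {n : ℕ} {p : List ℕ} (f : Fin n → ℕ) (hp : ∀ i : Fin n, p.getD i.val 0 = f i)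
    (a b c d : Fin n) : metT p a.val b.val c.val d.val = true ↔ MetInOrder f a b c d := by
  unfold metT MetInOrder
  rw [hp a, hp b, hp c, hp d]
  simp only [Bool.or_eq_true, Bool.and_eq_true, decide_eq_true_eq]

theorem obsT_iff {M : List (List Bool)} {p : List ℕ} (f : Fin M.length → ℕ)
    (hp : ∀ i : Fin M.length, p.getD i.val 0 = f i) (a b c d : Fin M.length) :
    obsT M p a.val b.val c.val d.val = true ↔ MetInOrder f a b c d ∧ (matGraph M).Adj a c ∧
      (matGraph M).Adj b d ∧ ¬ (matGraph M).Adj a b ∧ ¬ (matGraph M).Adj b c ∧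
      ¬ (matGraph M).Adj c d ∧ ¬ (matGraph M).Adj d a := by
  unfold obsT
  have h := fun i j : Fin M.length => (adjT_iff (M := M) i j).not
  simp only [Bool.not_eq_true] at h
  simp only [Bool.and_eq_true, Bool.not_eq_true', metT_iff f hp, adjT_iff, h]

/-- the rank function -/
def rk {n : ℕ} (f : Fin n → ℕ) (i : Fin n) : ℕ := (Finset.univ.filter fun j => f j < f i).card

theorem rk_lt {n : ℕ} (f : Fin n → ℕ) (i : Fin n) : rk f i < n := by
  have h : rk f i < (Finset.univ : Finset (Fin n)).card := by
    refine Finset.card_lt_card (Finset.ssubset_iff_subset_ne.2 ⟨Finset.subset_univ _, fun h => ?_⟩)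
    have h1 := Finset.mem_univ i
    rw [← h, Finset.mem_filter] at h1
    exact lt_irrefl _ h1.2
  rwa [Finset.card_univ, Fintype.card_fin] at h

theorem rk_lt_iff {n : ℕ} (f : Fin n → ℕ) (i j : Fin n) : rk f i < rk f j ↔ f i < f j := by
  constructor
  · intro h
    by_contra hcon
    push Not at hcon
    refine absurd h (not_lt.2 (Finset.card_le_card fun x hx => ?_))
    rw [Finset.mem_filter] at hx ⊢
    exact ⟨Finset.mem_univ _, by omega⟩
  · intro h
    refine Finset.card_lt_card (Finset.ssubset_iff_subset_ne.2 ⟨fun x hx => ?_, fun he => ?_⟩)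
    · rw [Finset.mem_filter] at hx ⊢
      exact ⟨Finset.mem_univ _, by omega⟩
    · have h1 : i ∈ Finset.univ.filter fun x => f x < f j :=
        Finset.mem_filter.2 ⟨Finset.mem_univ _, h⟩
      rw [← he, Finset.mem_filter] at h1
      exact lt_irrefl _ h1.2

theorem getD_ofFn {β : Type} {n : ℕ} (g : Fin n → β) (d : β) (i : Fin n) :
    (List.ofFn g).getD i.val d = g i := by
  rw [List.getD_eq_getElem _ _ (by simp)]
  simp

theorem cert_iff (M : List (List Bool)) : BipGoodOrdering M ↔ ∃ w : List Bool × List ℕ,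
    sz w ≤ (4 * Polynomial.X + Polynomial.X * (4 * Polynomial.X + 2) + 3 : Polynomial ℕ).eval (sz M) ∧
      certT (M, w) = true := by
  constructor
  · rintro ⟨⟨C⟩, f, hf, hobs⟩
    refine ⟨(List.ofFn fun i => decide (C i = 0), List.ofFn fun i => rk f i), ?_, ?_⟩
    · have h1 := sz_listBool_le (List.ofFn fun i => decide (C i = 0))
      rw [List.length_ofFn] at h1
      have h2 := sz_le_length_mul (List.ofFn fun i => rk f i) (4 * M.length + 1) (by
        intro x hx
        obtain ⟨i, rfl⟩ := (List.mem_ofFn' _ _).1 hx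
        have h3 := sz_nat_le (rk f i)
        have h4 : (rk f i).size ≤ rk f i := by
          rw [Nat.size_le]
          exact Nat.lt_two_pow_self
        have h5 := rk_lt f i
        show sz (rk f i) ≤ _
        omega)
      rw [List.length_ofFn] at h2
      have h3 := length_lt_sz M
      rw [sz_pair]
      simp only [Polynomial.eval_add, Polynomial.eval_mul, Polynomial.eval_X, Polynomial.eval_ofNat]
      nlinarith
    · unfold certT
      simp only [Bool.and_eq_true, List.all_eq_true, List.mem_range, Bool.or_eq_true,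
        Bool.not_eq_true', decide_eq_true_eq, decide_eq_false_iff_not]
      refine ⟨fun i hi j hj => ⟨?_, ?_⟩, fun a ha b hb c hc d hd => ?_⟩
      · by_cases h : (matGraph M).Adj ⟨i, hi⟩ ⟨j, hj⟩
        · right
          have e1 := getD_ofFn (fun i => decide (C i = 0)) false (⟨i, hi⟩ : Fin M.length)
          have e2 := getD_ofFn (fun i => decide (C i = 0)) false (⟨j, hj⟩ : Fin M.length)
          simp only at e1 e2
          rw [e1, e2]
          have h1 := C.valid h
          intro h2
          rw [decide_eq_decide] at h2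
          apply h1
          omega
        · left
          have := (adjT_iff (M := M) ⟨i, hi⟩ ⟨j, hj⟩).not.2 h
          simpa using this
      · by_cases h : i = j
        · exact Or.inl h
        · right
          have e1 := getD_ofFn (fun i => rk f i) 0 (⟨i, hi⟩ : Fin M.length)
          have e2 := getD_ofFn (fun i => rk f i) 0 (⟨j, hj⟩ : Fin M.length)
          simp only at e1 e2
          rw [e1, e2]
          intro h1
          have h2 := (rk_lt_iff f ⟨i, hi⟩ ⟨j, hj⟩).not.1 (by omega)
          have h3 := (rk_lt_iff f ⟨j, hj⟩ ⟨i, hi⟩).not.1 (by omega)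
          have h4 := hf (le_antisymm (not_lt.1 h3) (not_lt.1 h2))
          exact h (congrArg Fin.val h4)
      · have e := obsT_iff (M := M) (p := List.ofFn fun i => rk f i) (fun i => rk f i)
          (fun i => getD_ofFn _ _ i) ⟨a, ha⟩ ⟨b, hb⟩ ⟨c, hc⟩ ⟨d, hd⟩
        by_contra hcon
        rw [Bool.not_eq_false] at hcon
        obtain ⟨hm, h⟩ := e.1 hcon
        refine hobs ⟨_, _, _, _, ?_, h⟩
        unfold MetInOrder at hm ⊢
        simp only [rk_lt_iff] at hm
        exact hm
  · rintro ⟨⟨col, pos⟩, _, h⟩
    unfold certT at h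
    simp only [Bool.and_eq_true, List.all_eq_true, List.mem_range, Bool.or_eq_true,
      Bool.not_eq_true', decide_eq_true_eq, decide_eq_false_iff_not] at h
    obtain ⟨h1, h2⟩ := h
    refine ⟨⟨SimpleGraph.Coloring.mk (fun i => if col.getD i.val false = true then 0 else 1) ?_⟩,
      fun i => pos.getD i.val 0, ?_, ?_⟩
    · intro i j hij hcol
      have h3 := (h1 i.val i.2 j.val j.2).1
      rcases h3 with h3 | h3
      · have := (adjT_iff i j).2 hij
        rw [h3] at this
        exact absurd this (by decide)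
      · apply h3
        by_cases hi : col.getD i.val false = true <;> by_cases hj : col.getD j.val false = true
        · rw [hi, hj]
        · rw [if_pos hi, if_neg hj] at hcol
          exact absurd hcol (by decide)
        · rw [if_neg hi, if_pos hj] at hcol
          exact absurd hcol (by decide)
        · rw [Bool.not_eq_true] at hi hj
          rw [hi, hj]
    · intro i j hij
      rcases (h1 i.val i.2 j.val j.2).2 with h3 | h3
      · exact Fin.ext h3
      · exact absurd hij h3
    · rintro ⟨a, b, c, d, hm, h⟩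
      have h3 := h2 a.val a.2 b.val b.2 c.val c.2 d.val d.2
      have h4 := (obsT_iff (M := M) (p := pos) (fun i => pos.getD i.val 0) (fun i => rfl)
        a b c d).2 ⟨hm, h⟩
      rw [h3] at h4
      exact absurd h4 (by decide)

/-- The problem is in `NP`. -/
theorem inNPP_bip : InNPP BipGoodOrdering :=
  inNPP_of (β := List Bool × List ℕ) (R := certT) certT_poly _ cert_iff

/-- the test for a dominating edge -/
def domT (M : List (List Bool)) : Bool :=
  (List.range M.length).any fun x => (List.range M.length).any fun y =>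
    adjT M x y && (List.range M.length).all fun v => adjT M v x || adjT M v y

theorem domT_poly {α : Type} [TEnc α] {M : α → List (List Bool)} (hM : Poly M) :
    Poly (fun a => domT (M a)) := by
  have hr : UPoly (fun a => (M a).length) := UPoly.length hM
  unfold domT
  refine Poly.any (l := fun a => List.range (M a).length)
    (p := fun a x => (List.range (M a).length).any fun y =>
      adjT (M a) x y && (List.range (M a).length).all fun v => adjT (M a) v x || adjT (M a) v y)
    hr.range ?_
  have f1 : Poly (fun y : α × ℕ => y.1) := Poly.fst Poly.id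
  refine Poly.any (l := fun z : α × ℕ => List.range (M z.1).length)
    (p := fun z y => adjT (M z.1) z.2 y && (List.range (M z.1).length).all fun v =>
      adjT (M z.1) v z.2 || adjT (M z.1) v y) (hr.comp f1).range ?_
  have f2 : Poly (fun z : (α × ℕ) × ℕ => z.1.1) := Poly.fst (Poly.fst Poly.id)
  have hx : Poly (fun z : (α × ℕ) × ℕ => z.1.2) := Poly.snd (Poly.fst Poly.id)
  have hy : Poly (fun z : (α × ℕ) × ℕ => z.2) := Poly.snd Poly.id
  refine Poly.and (adjT_poly (hM.comp f2) hx hy) ?_
  refine Poly.all (l := fun z : (α × ℕ) × ℕ => List.range (M z.1.1).length)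
    (p := fun z v => adjT (M z.1.1) v z.1.2 || adjT (M z.1.1) v z.2) (hr.comp f2).range ?_
  have f3 : Poly (fun z : ((α × ℕ) × ℕ) × ℕ => z.1.1.1) := Poly.fst (Poly.fst (Poly.fst Poly.id))
  have hx : Poly (fun z : ((α × ℕ) × ℕ) × ℕ => z.1.1.2) := Poly.snd (Poly.fst (Poly.fst Poly.id))
  have hy : Poly (fun z : ((α × ℕ) × ℕ) × ℕ => z.1.2) := Poly.snd (Poly.fst Poly.id)
  have hv : Poly (fun z : ((α × ℕ) × ℕ) × ℕ => z.2) := Poly.snd Poly.id
  exact Poly.or (adjT_poly (hM.comp f3) hv hx) (adjT_poly (hM.comp f3) hv hy)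

theorem domT_iff (M : List (List Bool)) : domT M = true ↔ DomEdge (matGraph M) := by
  unfold domT DomEdge
  simp only [List.any_eq_true, List.all_eq_true, List.mem_range, Bool.and_eq_true, Bool.or_eq_true]
  constructor
  · rintro ⟨x, hx, y, hy, h, h'⟩
    refine ⟨⟨x, hx⟩, ⟨y, hy⟩, (adjT_iff ⟨x, hx⟩ ⟨y, hy⟩).1 h, fun v => ?_⟩
    rcases h' v.val v.2 with h' | h'
    · exact Or.inl ((adjT_iff v ⟨x, hx⟩).1 h')
    · exact Or.inr ((adjT_iff v ⟨y, hy⟩).1 h')
  · rintro ⟨x, y, h, h'⟩
    refine ⟨x.val, x.2, y.val, y.2, (adjT_iff x y).2 h, fun v hv => ?_⟩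
    rcases h' ⟨v, hv⟩ with h' | h'
    · exact Or.inl ((adjT_iff ⟨v, hv⟩ x).2 h')
    · exact Or.inr ((adjT_iff ⟨v, hv⟩ y).2 h')

/-- The problem restricted to graphs with a dominating edge is in `NP`. -/
theorem inNPP_dom : InNPP (fun M => BipGoodOrdering M ∧ DomEdge (matGraph M)) := by
  refine inNPP_of (β := List Bool × List ℕ) (R := fun x => certT x && domT x.1)
    (Poly.and certT_poly (domT_poly (Poly.fst Poly.id)))
    (4 * Polynomial.X + Polynomial.X * (4 * Polynomial.X + 2) + 3) ?_
  intro M
  rw [cert_iff M, ← domT_iff M]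
  constructor
  · rintro ⟨⟨w, h1, h2⟩, h3⟩
    exact ⟨w, h1, by rw [h2, h3]; rfl⟩
  · rintro ⟨w, h1, h2⟩
    rw [Bool.and_eq_true] at h2
    exact ⟨⟨w, h1, h2.1⟩, h2.2⟩

end Pool.Agent.Y646.CO
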